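import Mathlib

namespace Pool.Agent.Results.MP_590456_lc.No
open MeasureTheory NNReal ENNReal

/-- What the algorithm has seen, latest first: for every earlier attempt its time step and its
label (`true` is spam), or `none` if the attempt was abandoned. -/
abbrev Hist := List (ℕ × Option Bool)

/-- The law of the coins of one attempt: it is a good post with probability `q`, and independently
the classifier errs with probability `ε`. -/
def wt (q ε : ℝ) (a : Bool × Bool) : ℝ :=
  (if a.1 then q else 1 - q) * (if a.2 then ε else 1 - ε)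

/-- Expectation of `f` over `n` independent pairs of coins. -/
def avg (q ε : ℝ) : ℕ → (List (Bool × Bool) → ℝ) → ℝ
  | 0, f => f []
  | n + 1, f => ∑ a : Bool × Bool, wt q ε a * avg q ε n (fun l => f (a :: l))

/-- The attempts take place at the time steps `ts`; `A` fixes the costs, good IDs always pay, and
bad IDs pay exactly the costs that are at most `θ`. The value is the triple of totals: published
spam plus cost paid on legitimate posts, resource paid by bad IDs, number of good posts. -/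
noncomputable def run (A : ℕ → Hist → ℝ≥0) (θ : ℝ≥0) :
    List ℕ → Hist → List (Bool × Bool) → ℝ × ℝ × ℝ
  | t :: ts, h, a :: l =>
    if a.1 then ((A t h : ℝ), 0, 1) + run A θ ts ((t, some a.2) :: h) l
    else if A t h ≤ θ then (1, (A t h : ℝ), 0) + run A θ ts ((t, some (!a.2)) :: h) l
    else run A θ ts ((t, none) :: h) l
  | _, _, _ => 0

/-- `N` attempts in each of the time steps `1, …, L`. -/
def sched (L N : ℕ) : List ℕ := (List.range L).flatMap fun t => List.replicate N (t + 1)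

/-- Expected rate (total divided by `L`) of the coordinate `sel` of the totals, over the randomness
`ω` of the algorithm, the coins of the adversary and the classifier errors. -/
noncomputable def rate {Ω : Type} [MeasurableSpace Ω] (μ : Measure Ω) (A : Ω → ℕ → Hist → ℝ≥0)
    (ε : ℝ) (L N : ℕ) (q : ℝ) (θ : ℝ≥0) (sel : ℝ × ℝ × ℝ → ℝ) : ℝ≥0∞ :=
  ∫⁻ ω, ENNReal.ofReal (avg q ε (L * N) (fun l => sel (run (A ω) θ (sched L N) [] l)) / L) ∂μ

lemma wt_sum (q ε : ℝ) : ∑ a : Bool × Bool, wt q ε a = 1 := by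
  simp [Fintype.sum_prod_type, wt]; ring

lemma avg_add (q ε : ℝ) (n : ℕ) (b : ℝ) (f : List (Bool × Bool) → ℝ) :
    avg q ε n (fun l => b + f l) = b + avg q ε n f := by
  induction n generalizing f with
  | zero => rfl
  | succ n ih =>
    simp only [avg, ih, mul_add, Finset.sum_add_distrib, ← Finset.sum_mul, wt_sum, one_mul]

lemma main (ε : ℝ) (h0 : 0 ≤ ε) (h1 : ε ≤ 1) (A : ℕ → Hist → ℝ≥0) (θ : ℝ≥0) (q : ℝ)
    (hq0 : 0 ≤ q) (hq1 : q ≤ 1) (hq : q * θ = 1 - q) (ts : List ℕ) (h : Hist) :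
    ts.length * (1 - q) ≤ avg q ε ts.length (fun l => (run A θ ts h l).1) ∧
    avg q ε ts.length (fun l => (run A θ ts h l).2.1) ≤ ts.length * θ ∧
    avg q ε ts.length (fun l => (run A θ ts h l).2.2) = ts.length * q := by
  induction ts generalizing h with
  | nil => simp [avg, run]
  | cons t ts ih =>
    obtain ⟨a1, a2, a3⟩ := ih ((t, some true) :: h)
    obtain ⟨b1, b2, b3⟩ := ih ((t, some false) :: h)
    obtain ⟨c1, c2, c3⟩ := ih ((t, none) :: h)
    have hx : (0 : ℝ) ≤ A t h := (A t h).2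
    have hθ : (0 : ℝ) ≤ θ := θ.2
    have e1 : 0 ≤ q * ε := by positivity
    have e2 : 0 ≤ q * (1 - ε) := mul_nonneg hq0 (by linarith)
    have e3 : 0 ≤ (1 - q) * ε := mul_nonneg (by linarith) h0
    have e4 : 0 ≤ (1 - q) * (1 - ε) := mul_nonneg (by linarith) (by linarith)
    simp only [List.length_cons, avg, Fintype.sum_prod_type, Fintype.sum_bool, wt, run,
      if_true, Bool.false_eq_true, if_false, Bool.not_true, Bool.not_false]
    by_cases hA : A t h ≤ θ
    · have hA' : (A t h : ℝ) ≤ θ := hA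
      simp only [hA, if_true, Prod.fst_add, Prod.snd_add, avg_add, a3, b3]
      push_cast
      refine ⟨?_, ?_, by ring⟩
      · nlinarith [mul_le_mul_of_nonneg_left a1 e1, mul_le_mul_of_nonneg_left b1 e2,
          mul_le_mul_of_nonneg_left b1 e3, mul_le_mul_of_nonneg_left a1 e4, mul_nonneg hq0 hx]
      · nlinarith [mul_le_mul_of_nonneg_left a2 e1, mul_le_mul_of_nonneg_left b2 e2,
          mul_le_mul_of_nonneg_left b2 e3, mul_le_mul_of_nonneg_left a2 e4, mul_nonneg hq0 hx,
          mul_nonneg hq0 hθ]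
    · have hA' : (θ : ℝ) ≤ A t h := (not_le.1 hA).le
      simp only [hA, if_false, Prod.fst_add, Prod.snd_add, avg_add, a3, b3, c3]
      push_cast
      refine ⟨?_, ?_, by ring⟩
      · nlinarith [mul_le_mul_of_nonneg_left a1 e1, mul_le_mul_of_nonneg_left b1 e2,
          mul_le_mul_of_nonneg_left c1 e3, mul_le_mul_of_nonneg_left c1 e4,
          mul_le_mul_of_nonneg_left hA' hq0]
      · nlinarith [mul_le_mul_of_nonneg_left a2 e1, mul_le_mul_of_nonneg_left b2 e2,
          mul_le_mul_of_nonneg_left c2 e3, mul_le_mul_of_nonneg_left c2 e4]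

lemma sched_length (L N : ℕ) : (sched L N).length = L * N := by
  simp [sched, List.length_flatMap]

theorem result (Ω : Type) [MeasurableSpace Ω] (μ : Measure Ω) [IsProbabilityMeasure μ]
    (ε : ℝ) (h0 : 0 ≤ ε) (h1 : ε < 1 / 2) (A : Ω → ℕ → Hist → ℝ≥0) (c : ℝ≥0)
    (L : ℕ) (hL : 1 ≤ L) :
    ∃ (N : ℕ) (q : ℝ) (θ : ℝ≥0), 0 ≤ q ∧ q ≤ 1 ∧
      (c : ℝ≥0∞) * (rate μ A ε L N q θ (fun v => v.2.1) ^ (2 / 3 : ℝ) +
        rate μ A ε L N q θ (fun v => v.2.2)) < rate μ A ε L N q θ (fun v => v.1) := by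
  obtain ⟨P, hP⟩ := exists_nat_ge (8 * (c : ℝ) + 1)
  have hc : (0 : ℝ) ≤ c := c.2
  have hP1 : (1 : ℝ) ≤ P := by linarith
  have hL' : (0 : ℝ) < L := by exact_mod_cast hL
  set q : ℝ := 1 / (P ^ 3 + 1) with hqdef
  have hP3 : (P : ℝ) ≤ P ^ 3 := by nlinarith [mul_nonneg (sub_nonneg.2 hP1) (sub_nonneg.2 hP1)]
  have hq0 : 0 ≤ q := by positivity
  have hqh : q ≤ 1 / 2 := by
    rw [hqdef]; exact one_div_le_one_div_of_le (by norm_num) (by linarith)
  have hq : q * ((P ^ 3 : ℝ≥0) : ℝ) = 1 - q := by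
    rw [hqdef]; push_cast; field_simp; ring
  have hqc : c * q ≤ 1 / 8 := by
    rw [hqdef, mul_one_div, div_le_div_iff₀ (by positivity) (by norm_num)]; linarith
  refine ⟨P ^ 9, q, (P ^ 3 : ℝ≥0), hq0, by linarith, ?_⟩
  have key := fun ω => main ε h0 (by linarith) (A ω) (P ^ 3 : ℝ≥0) q hq0 (by linarith) hq
    (sched L (P ^ 9)) []
  simp only [sched_length] at key
  have k1 : ENNReal.ofReal ((P : ℝ) ^ 9 / 2) ≤
      rate μ A ε L (P ^ 9) q (P ^ 3 : ℝ≥0) (fun v => v.1) := by
    have : ENNReal.ofReal ((P : ℝ) ^ 9 / 2) = ∫⁻ _, ENNReal.ofReal ((P : ℝ) ^ 9 / 2) ∂μ := by simp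
    rw [this]
    refine lintegral_mono fun ω => ENNReal.ofReal_le_ofReal ?_
    rw [le_div_iff₀ hL']
    have := (key ω).1
    push_cast at this
    have h9 : (0 : ℝ) ≤ L * P ^ 9 := by positivity
    nlinarith
  have k2 : rate μ A ε L (P ^ 9) q (P ^ 3 : ℝ≥0) (fun v => v.2.1) ≤
      ENNReal.ofReal ((P : ℝ) ^ 12) := by
    have : ENNReal.ofReal ((P : ℝ) ^ 12) = ∫⁻ _, ENNReal.ofReal ((P : ℝ) ^ 12) ∂μ := by simp
    rw [this]
    refine lintegral_mono fun ω => ENNReal.ofReal_le_ofReal ?_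
    rw [div_le_iff₀ hL']
    have := (key ω).2.1
    push_cast at this
    linarith
  have k3 : rate μ A ε L (P ^ 9) q (P ^ 3 : ℝ≥0) (fun v => v.2.2) ≤
      ENNReal.ofReal ((P : ℝ) ^ 9 * q) := by
    have : ENNReal.ofReal ((P : ℝ) ^ 9 * q) = ∫⁻ _, ENNReal.ofReal ((P : ℝ) ^ 9 * q) ∂μ := by simp
    rw [this]
    refine lintegral_mono fun ω => ENNReal.ofReal_le_ofReal ?_
    rw [div_le_iff₀ hL']
    have := (key ω).2.2
    push_cast at this
    linarith
  have k4 : rate μ A ε L (P ^ 9) q (P ^ 3 : ℝ≥0) (fun v => v.2.1) ^ (2 / 3 : ℝ) ≤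
      ENNReal.ofReal ((P : ℝ) ^ 8) := by
    refine (ENNReal.rpow_le_rpow k2 (by norm_num)).trans (le_of_eq ?_)
    rw [ENNReal.ofReal_rpow_of_nonneg (by positivity) (by norm_num), ← Real.rpow_natCast,
      ← Real.rpow_mul (by positivity), ← Real.rpow_natCast]
    norm_num
  refine lt_of_le_of_lt (mul_le_mul_right (add_le_add k4 k3) _) (lt_of_lt_of_le ?_ k1)
  rw [← ENNReal.ofReal_add (by positivity) (by positivity), ← ENNReal.ofReal_coe_nnreal,
    ← ENNReal.ofReal_mul hc, ENNReal.ofReal_lt_ofReal_iff (by positivity)]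
  have h8 : (0 : ℝ) < P ^ 8 := by positivity
  have h9 : (0 : ℝ) < P ^ 9 := by positivity
  have : c * (P : ℝ) ^ 8 ≤ P ^ 9 / 8 := by nlinarith
  nlinarith

end Pool.Agent.Results.MP_590456_lc.No
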